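import Pool.Agent.H94.Qw3

set_option autoImplicit false

namespace Pool.Agent.Results.MP_261efc_co.Obstruction
open Pool.Agent.H94.Qw

theorem result (n : ℕ) (h : (6 ∣ n + 1 ∧ 11 ≤ n) ∨ 15 ∣ n + 1 ∨ 21 ∣ n + 1) (f : ℝ → ℝ)
    (i : ∫ s, f s = 1) : (avg n f).rank ≠ 1 :=
  main h i

end Pool.Agent.Results.MP_261efc_co.Obstruction
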